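import Pool.Agent.Helper95.OD.St

set_option autoImplicit false

namespace Pool.Agent.Helper77.OD

open Pool.Agent.Helper95.OD Finset
open scoped Classical

theorem cell_ext {m r : ℕ} {c c' : Cl m r} (h1 : lo c' = lo c) (h2 : hi c' = hi c) : c' = c := by
  obtain ⟨⟨⟨i, j⟩, h⟩, x, y⟩ := c
  obtain ⟨⟨⟨i', j'⟩, h'⟩, x', y'⟩ := c'
  simp only [lo, hi, Prod.mk.injEq] at h1 h2
  obtain ⟨rfl, rfl⟩ := h1
  obtain ⟨rfl, rfl⟩ := h2
  rfl

theorem adj_fib {m r : ℕ} {σ : Cfg m r} {u v : Vx m r} (h : (Gr σ).Adj u v) : u.1 ≠ v.1 := by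
  obtain ⟨c, _, ⟨h1, h2⟩ | ⟨h1, h2⟩⟩ := h
  · rw [← h1, ← h2]
    exact ne_of_lt c.1.2
  · rw [← h1, ← h2]
    exact (ne_of_lt c.1.2).symm

theorem hGC : GC := by
  intro m r s σ hσ X hX
  have hTv : Tv X := by
    intro u hu v hv huv
    by_contra hne
    exact adj_fib (hX.isClique hu hv hne) huv
  have hKB : cells X ∈ KB m r s := by
    unfold KB
    rw [Finset.mem_image]
    refine ⟨X, ?_, rfl⟩
    rw [Finset.mem_filter, Finset.mem_powersetCard]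
    exact ⟨⟨Finset.subset_univ _, hX.card_eq⟩, hTv⟩
  have h1 : ∀ N ∈ KB m r s, ∃ c ∈ N, ¬ Pres σ c := by
    have := hσ
    unfold Av at this
    rw [Finset.mem_filter] at this
    exact this.2
  obtain ⟨c, hc, hnp⟩ := h1 _ hKB
  unfold cells at hc
  rw [Finset.mem_filter] at hc
  obtain ⟨_, hlo, hhi⟩ := hc
  have hne : lo c ≠ hi c := fun h => absurd (congrArg Prod.fst h) (ne_of_lt c.1.2)
  obtain ⟨c', hp, ⟨h2, h3⟩ | ⟨h2, h3⟩⟩ := hX.isClique hlo hhi hne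
  · rw [cell_ext h2 h3] at hp
    exact hnp hp
  · have h4 : (lo c').1 < (hi c').1 := c'.1.2
    have h5 : (lo c).1 < (hi c).1 := c.1.2
    rw [h2, h3] at h4
    exact absurd h4 (not_lt.2 h5.le)

end Pool.Agent.Helper77.OD
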