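import Pool.Agent.Helper95.OD.St

set_option autoImplicit false

namespace Pool.Agent.Helper77.OD

open Pool.Agent.Helper95.OD Finset
open scoped Classical

theorem hGI : GI := by
  intro hTT m r k σ hr h T hT
  obtain ⟨T', hsub, hthin, hcard⟩ := hTT m r k T hr hT.card_eq.ge
  obtain ⟨c, hc, hp⟩ := h T' hthin hcard
  unfold cells at hc
  rw [Finset.mem_filter] at hc
  obtain ⟨_, hlo, hhi⟩ := hc
  have hne : lo c ≠ hi c := fun h => absurd (congrArg Prod.fst h) (ne_of_lt c.1.2)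
  have h1 := hT.isClique (hsub hlo) (hsub hhi) hne
  rw [SimpleGraph.compl_adj] at h1
  exact h1.2 ⟨c, hp, Or.inl ⟨rfl, rfl⟩⟩

end Pool.Agent.Helper77.OD
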